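import Pool.Agent.CT.Bar.Fill

/-!
CT-B-Self: a torus square for `(v, v)` with class zero.

PLAN. `p : C(I, X)` a path from `x` to `v + x` (`fill_path`); `γ : ℝ → X` on `[0,2]`: `p` on
`[0,1]`, `v + p(. - 1)` on `[1,2]` (`γ u = if u ≤ 1 then p (k u) else v + p (k (u-1))` with
`k = Set.projIcc 0 1 zero_le_one`, continuous by `Continuous.if_le`). `Q(s,t) = γ(s+t)` is a torus square
for `(v,v)` (`γ(1+t) = v + γ(t)` for `t ∈ [0,1]`); the cube `C(s,t,r) = γ(r(s+t))` has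
`faceX 1 C = faceY 1 C` (`γ(r(1+t))`) and `faceX 0 C = faceY 0 C` (as squares), `faceZ 1 C = Q` and
`faceZ 0 C` constant, degenerate. So `cl Q = 0` (`cl_cube`, `cl_degen`).
-/

namespace Pool.Agent.CTB

open unitInterval

variable {L X : Type*} [AddCommGroup L] [TopologicalSpace X] [AddAction L X]
  [ContinuousConstVAdd L X]

theorem cl_self (hX : NConn 2 X) (v : L) : ∃ Q : Sq X, TorusSq v v Q ∧ cl L Q = 0 := by
  obtain ⟨x⟩ := hX.1
  obtain ⟨p, hp0, hp1⟩ := fill_path hX x (v +ᵥ x)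
  let k : ℝ → I := Set.projIcc 0 1 zero_le_one
  have hk : Continuous k := continuous_projIcc
  have kI : ∀ t : I, k (t : ℝ) = t := fun t => Set.projIcc_val zero_le_one t
  have k0 : k 0 = 0 := kI 0
  have k1 : k 1 = 1 := kI 1
  let γ : ℝ → X := fun u => if u ≤ 1 then p (k u) else v +ᵥ p (k (u - 1))
  have hγ : Continuous γ := by
    refine Continuous.if_le (p.continuous.comp hk) ((continuous_const_vadd v).comp
      (p.continuous.comp (hk.comp (continuous_id.sub continuous_const)))) continuous_id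
      continuous_const ?_
    intro u hu
    have hu' : u = 1 := hu
    show p (k u) = v +ᵥ p (k (u - 1))
    rw [hu', sub_self, k0, k1, hp0, hp1]
  have key : ∀ t : I, γ (1 + (t : ℝ)) = v +ᵥ γ (t : ℝ) := by
    intro t
    have h1 : γ (t : ℝ) = p t := by
      show (if (t : ℝ) ≤ 1 then p (k (t : ℝ)) else _) = _
      rw [if_pos t.2.2, kI]
    rw [h1]
    by_cases h : 1 + (t : ℝ) ≤ 1
    · have ht : (t : ℝ) = 0 := le_antisymm (by linarith) t.2.1
      have ht' : t = 0 := Subtype.ext ht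
      rw [ht, ht', add_zero]
      show (if (1 : ℝ) ≤ 1 then p (k 1) else _) = _
      rw [if_pos le_rfl, k1, hp1, hp0]
    · show (if 1 + (t : ℝ) ≤ 1 then _ else v +ᵥ p (k (1 + (t : ℝ) - 1))) = _
      rw [if_neg h, add_sub_cancel_left, kI]
  let Q : Sq X := ⟨fun q => γ ((q.1 : ℝ) + (q.2 : ℝ)), hγ.comp (by fun_prop)⟩
  let C : Cu X := ⟨fun q => γ ((q.2.2 : ℝ) * ((q.1 : ℝ) + (q.2.1 : ℝ))), hγ.comp (by fun_prop)⟩
  refine ⟨Q, ⟨fun t => ?_, fun s => ?_⟩, ?_⟩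
  · show γ (((1 : I) : ℝ) + (t : ℝ)) = v +ᵥ γ (((0 : I) : ℝ) + (t : ℝ))
    rw [Set.Icc.coe_one, Set.Icc.coe_zero, zero_add]
    exact key t
  · show γ ((s : ℝ) + ((1 : I) : ℝ)) = v +ᵥ γ ((s : ℝ) + ((0 : I) : ℝ))
    rw [Set.Icc.coe_one, Set.Icc.coe_zero, add_zero, add_comm]
    exact key s
  · have e1 : faceX 1 C = faceY 1 C := by
      ext q
      show γ ((q.2 : ℝ) * (((1 : I) : ℝ) + (q.1 : ℝ))) = γ ((q.2 : ℝ) * ((q.1 : ℝ) + ((1 : I) : ℝ)))
      rw [add_comm]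
    have e2 : faceX 0 C = faceY 0 C := by
      ext q
      show γ ((q.2 : ℝ) * (((0 : I) : ℝ) + (q.1 : ℝ))) = γ ((q.2 : ℝ) * ((q.1 : ℝ) + ((0 : I) : ℝ)))
      rw [add_comm]
    have e3 : faceZ 1 C = Q := by
      ext q
      show γ (((1 : I) : ℝ) * ((q.1 : ℝ) + (q.2 : ℝ))) = γ ((q.1 : ℝ) + (q.2 : ℝ))
      rw [Set.Icc.coe_one, one_mul]
    have e4 : Degen (faceZ 0 C) := by
      left
      intro s t t'
      show γ (((0 : I) : ℝ) * ((s : ℝ) + (t : ℝ))) = γ (((0 : I) : ℝ) * ((s : ℝ) + (t' : ℝ)))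
      rw [Set.Icc.coe_zero, zero_mul, zero_mul]
    have h := cl_cube L C
    rw [e1, e2, e3, cl_degen L _ e4, sub_self, zero_add, sub_zero] at h
    exact h

end Pool.Agent.CTB
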