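import Pool.Agent.CT.Bar.Glue
import Pool.Agent.CT.Bar.Self

/-!
CT-B-Add: the class of a torus square is additive in both variables.

PLAN. `exists_from (hX) (v w) (l : C(I, X)) (hl : l 1 = w + l 0)`: there is a torus square `Q` for `(v, w)`
with `Q(0,t) = l t` (bottom: a path `p` from `l 0` to `v + l 0`, top `w + p`, right `v + l`, `fill_sq`).
`cl_transpose`: let `Q1(s,t) = Q(0,t)`, a degenerate torus square for `(0,w)`; `cl_glue 0 v w Q1 Q` gives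
a torus square `Q'` for `(0 + v, w)` with `cl Q' = 0 - cl (tpSq Q)`; by `cl_torus_eq` `cl Q' = cl Q`.
`exists_add_left`: `Q1` from `exists_torusSq`, `Q2` from `exists_from` with `l = Q1(1, .)`, `cl_glue` and
`cl_transpose`. `exists_add_right`: apply `exists_add_left` to `(w, w', v)`, transpose everything
(`tpSq_torus`, `cl_transpose`).
-/

namespace Pool.Agent.CTB

open unitInterval

variable {L X : Type*} [AddCommGroup L] [TopologicalSpace X] [AddAction L X]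
  [ContinuousConstVAdd L X]

private theorem exists_from (hX : NConn 2 X) (v w : L) (l : C(I, X)) (hl : l 1 = w +ᵥ l 0) :
    ∃ Q : Sq X, TorusSq v w Q ∧ ∀ t, Q (0, t) = l t := by
  obtain ⟨p, hp0, hp1⟩ := fill_path hX (l 0) (v +ᵥ l 0)
  let tp : C(I, X) := ⟨fun s => w +ᵥ p s, (continuous_const_vadd w).comp p.continuous⟩
  let r : C(I, X) := ⟨fun s => v +ᵥ l s, (continuous_const_vadd v).comp l.continuous⟩
  have h00 : p 0 = l 0 := hp0
  have h10 : p 1 = r 0 := hp1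
  have h01 : tp 0 = l 1 := by
    show w +ᵥ p 0 = l 1
    rw [hp0, hl]
  have h11 : tp 1 = r 1 := by
    show w +ᵥ p 1 = v +ᵥ l 1
    rw [hp1, hl, vadd_vadd, vadd_vadd, add_comm]
  obtain ⟨Q, hb, ht, hlq, hr⟩ := fill_sq hX p tp l r h00 h10 h01 h11
  refine ⟨Q, ⟨fun t => ?_, fun s => ?_⟩, hlq⟩
  · rw [hr, hlq]
    rfl
  · rw [ht, hb]
    rfl

theorem cl_transpose (hX : NConn 2 X) (v w : L) (Q : Sq X) (h : TorusSq v w Q) :
    cl L (tpSq Q) = - cl L Q := by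
  let Q1 : Sq X := ⟨fun p => Q (0, p.2), by fun_prop⟩
  have hQ1 : TorusSq (0 : L) w Q1 := by
    refine ⟨fun t => ?_, fun s => ?_⟩
    · show Q (0, t) = (0 : L) +ᵥ Q (0, t)
      rw [zero_vadd]
    · exact h.2 0
  have hd : Degen Q1 := Or.inr fun s s' t => rfl
  obtain ⟨Q', hQ', e⟩ := cl_glue (0 : L) v w Q1 Q hQ1 h fun t => rfl
  rw [zero_add] at hQ'
  have e2 := cl_torus_eq hX v w Q Q' h hQ'
  rw [cl_degen L Q1 hd, zero_sub, ← e2] at e
  rw [e, neg_neg]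

theorem exists_add_left (hX : NConn 2 X) (v v' w : L) :
    ∃ Q1 Q2 Q : Sq X, TorusSq v w Q1 ∧ TorusSq v' w Q2 ∧ TorusSq (v + v') w Q ∧
      cl L Q = cl L Q1 + cl L Q2 := by
  obtain ⟨Q1, h1⟩ := exists_torusSq hX v w
  let l : C(I, X) := ⟨fun t => Q1 (1, t), by fun_prop⟩
  obtain ⟨Q2, h2, h12⟩ := exists_from hX v' w l (h1.2 1)
  obtain ⟨Q, h, e⟩ := cl_glue v v' w Q1 Q2 h1 h2 fun t => h12 t
  refine ⟨Q1, Q2, Q, h1, h2, h, ?_⟩
  rw [e, cl_transpose hX v' w Q2 h2, sub_neg_eq_add]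

theorem exists_add_right (hX : NConn 2 X) (v w w' : L) :
    ∃ Q1 Q2 Q : Sq X, TorusSq v w Q1 ∧ TorusSq v w' Q2 ∧ TorusSq v (w + w') Q ∧
      cl L Q = cl L Q1 + cl L Q2 := by
  obtain ⟨Q1, Q2, Q, h1, h2, h, e⟩ := exists_add_left hX w w' v
  refine ⟨tpSq Q1, tpSq Q2, tpSq Q, tpSq_torus _ _ _ h1, tpSq_torus _ _ _ h2,
    tpSq_torus _ _ _ h, ?_⟩
  rw [cl_transpose hX _ _ Q h, cl_transpose hX _ _ Q1 h1, cl_transpose hX _ _ Q2 h2, e, neg_add]

end Pool.Agent.CTB
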