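import Mathlib

/-!
Project CT, part S4 (bar construction with cubes), definitions.
`NConn n X`: the space `X` is `n`-connected.
Squares are continuous maps `I × I → X`, cubes are continuous maps `I × I × I → X`.
-/

namespace Pool.Agent.CTB

open unitInterval Metric

/-- The space `X` is `n`-connected: nonempty, and for `k ≤ n` every continuous map from the sphere
of dimension `k` extends to the ball of dimension `k + 1`. -/
def NConn (n : ℕ) (X : Type*) [TopologicalSpace X] : Prop :=
  Nonempty X ∧ ∀ k ≤ n, ∀ f : C(sphere (0 : EuclideanSpace ℝ (Fin (k + 1))) 1, X),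
    ∃ g : C(closedBall (0 : EuclideanSpace ℝ (Fin (k + 1))) 1, X),
      ∀ x : sphere (0 : EuclideanSpace ℝ (Fin (k + 1))) 1,
        g ⟨x, sphere_subset_closedBall x.2⟩ = f x

/-- Squares in `X`. -/
abbrev Sq (X : Type*) [TopologicalSpace X] := C(I × I, X)

/-- Cubes in `X`. -/
abbrev Cu (X : Type*) [TopologicalSpace X] := C(I × I × I, X)

section

variable {X Y : Type*} [TopologicalSpace X] [TopologicalSpace Y]

/-- The face `x = e` of a cube. -/
def faceX (e : I) (C : Cu X) : Sq X :=
  C.comp ⟨fun p => (e, p.1, p.2), by fun_prop⟩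

/-- The face `y = e` of a cube. -/
def faceY (e : I) (C : Cu X) : Sq X :=
  C.comp ⟨fun p => (p.1, e, p.2), by fun_prop⟩

/-- The face `z = e` of a cube. -/
def faceZ (e : I) (C : Cu X) : Sq X :=
  C.comp ⟨fun p => (p.1, p.2, e), by fun_prop⟩

@[simp] lemma faceX_apply (e : I) (C : Cu X) (p : I × I) : faceX e C p = C (e, p.1, p.2) := rfl
@[simp] lemma faceY_apply (e : I) (C : Cu X) (p : I × I) : faceY e C p = C (p.1, e, p.2) := rfl
@[simp] lemma faceZ_apply (e : I) (C : Cu X) (p : I × I) : faceZ e C p = C (p.1, p.2, e) := rfl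

/-- A square is degenerate if it does not depend on one of its variables. -/
def Degen (Q : Sq X) : Prop :=
  (∀ s t t', Q (s, t) = Q (s, t')) ∨ (∀ s s' t, Q (s, t) = Q (s', t))

/-- The alternating sum of the values of `f` on the faces of the cube `C`. -/
def bdVal (f : Sq X → ℝ) (C : Cu X) : ℝ :=
  (f (faceX 1 C) - f (faceX 0 C)) - (f (faceY 1 C) - f (faceY 0 C))
    + (f (faceZ 1 C) - f (faceZ 0 C))

/-- `f` is a (normalised, cubical) 2-cocycle on the part `K` of `Y`. -/
structure CocycleOn (K : Set Y) (f : Sq Y → ℝ) : Prop where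
  degen : ∀ Q : Sq Y, (∀ p, Q p ∈ K) → Degen Q → f Q = 0
  cube : ∀ C : Cu Y, (∀ p, C p ∈ K) → bdVal f C = 0

/-- `Q` is a torus square for the pair `(v, w)`: `Q(1,t) = v + Q(0,t)`, `Q(s,1) = w + Q(s,0)`. -/
def TorusSq {L : Type*} [AddCommGroup L] [AddAction L X] (v w : L) (Q : Sq X) : Prop :=
  (∀ t, Q (1, t) = v +ᵥ Q (0, t)) ∧ (∀ s, Q (s, 1) = w +ᵥ Q (s, 0))

end

/-! ### The chain group -/

section

variable (L X : Type*) [AddCommGroup L] [TopologicalSpace X] [AddAction L X]
  [ContinuousConstVAdd L X]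

/-- Translate of a square. -/
def trSq {L X : Type*} [AddCommGroup L] [TopologicalSpace X] [AddAction L X]
    [ContinuousConstVAdd L X] (w : L) (Q : Sq X) : Sq X :=
  ⟨fun p => w +ᵥ Q p, (continuous_const_vadd w).comp Q.continuous⟩

@[simp] lemma trSq_apply {L X : Type*} [AddCommGroup L] [TopologicalSpace X] [AddAction L X]
    [ContinuousConstVAdd L X] (w : L) (Q : Sq X) (p : I × I) : trSq w Q p = w +ᵥ Q p := rfl

/-- The boundary of a cube, as a formal sum of squares. -/
noncomputable def bd {X : Type*} [TopologicalSpace X] (C : Cu X) : Sq X →₀ ℝ :=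
  (Finsupp.single (faceX 1 C) 1 - Finsupp.single (faceX 0 C) 1)
    - (Finsupp.single (faceY 1 C) 1 - Finsupp.single (faceY 0 C) 1)
    + (Finsupp.single (faceZ 1 C) 1 - Finsupp.single (faceZ 0 C) 1)

/-- The relations: translates, boundaries of cubes, degenerate squares. -/
def Rels : Set (Sq X →₀ ℝ) :=
  {z | ∃ (w : L) (Q : Sq X), z = Finsupp.single (trSq w Q) 1 - Finsupp.single Q 1} ∪
    {z | ∃ C : Cu X, z = bd C} ∪ {z | ∃ Q : Sq X, Degen Q ∧ z = Finsupp.single Q 1}

/-- The chain group: formal real combinations of squares modulo translates, boundaries of cubes and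
degenerate squares. -/
abbrev Ch := (Sq X →₀ ℝ) ⧸ Submodule.span ℝ (Rels L X)

variable {X}

/-- The class of a square. -/
noncomputable def cl (Q : Sq X) : Ch L X :=
  Submodule.Quotient.mk (Finsupp.single Q 1)

lemma cl_tr (w : L) (Q : Sq X) : cl L (trSq w Q) = cl L Q := by
  unfold cl
  rw [Submodule.Quotient.eq]
  exact Submodule.subset_span (Or.inl (Or.inl ⟨w, Q, rfl⟩))

lemma cl_degen (Q : Sq X) (h : Degen Q) : cl L Q = 0 := by
  unfold cl
  rw [Submodule.Quotient.mk_eq_zero]
  exact Submodule.subset_span (Or.inr ⟨Q, h, rfl⟩)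

lemma cl_cube (C : Cu X) :
    (cl L (faceX 1 C) - cl L (faceX 0 C)) - (cl L (faceY 1 C) - cl L (faceY 0 C))
      + (cl L (faceZ 1 C) - cl L (faceZ 0 C)) = 0 := by
  have h : (Submodule.Quotient.mk (bd C) : Ch L X) = 0 := by
    rw [Submodule.Quotient.mk_eq_zero]
    exact Submodule.subset_span (Or.inl (Or.inr ⟨C, rfl⟩))
  simpa [bd, cl, Submodule.Quotient.mk_sub, Submodule.Quotient.mk_add] using h

end

end Pool.Agent.CTB
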