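import Pool.Agent.CT.Bar.Defs

/-!
CT-B-Fill: filling of the boundary of an interval, a square, a cube in a 2-connected space.

PLAN. (1) In `E k := EuclideanSpace ℝ (Fin (k+1))` let `cub k = {x | ∀ i, x i ∈ Set.Icc 0 1}`, a
compact convex set with nonempty interior. Mathlib has (Analysis/Convex/GaugeRescale)
`exists_homeomorph_image_interior_closure_frontier_eq_unitBall`: a homeomorphism `h` of `E k` with
`h '' closure cub = closedBall 0 1`, `h '' frontier cub = sphere 0 1`. Hence (`extend_cub`):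
if `NConn n X`, `k ≤ n` and `F : E k → X` is continuous on `frontier (cub k)` then there is a
`G : E k → X`, continuous on `cub k`, equal to `F` on `frontier (cub k)`
(compose `F` restricted to the frontier with `h.symm`, extend to the ball, compose with `h`).
(2) `frontier (cub k) = {x ∈ cub k | ∃ i, x i = 0 ∨ x i = 1}` (for `k = 0,1,2`; interior of a finite
product of intervals is the product of the open intervals, use the homeomorphism with `Fin (k+1) → ℝ`,
`interior_pi_set`, `interior_Icc`). In fact only this is needed: `frontier ⊆` that set, on which `F`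
is defined and continuous, and that every point with a coordinate `0` or `1` is in the frontier.
(3) `F` is defined by cases on the faces (`if x 0 = 0 then .. else if x 0 = 1 then ..`), using
`Set.projIcc 0 1 zero_le_one` to turn real coordinates into elements of `I`. Continuity on the union of
the closed faces: `ContinuousOn.union_of_isClosed` or `LocallyFinite.continuousOn_iUnion` style lemmas
(finite closed cover, on each face `F` agrees with a continuous function because of the compatibility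
hypotheses).
-/

namespace Pool.Agent.CTB

open unitInterval Metric

variable {X : Type*} [TopologicalSpace X]

private def cub (k : ℕ) : Set (EuclideanSpace ℝ (Fin (k + 1))) := {x | ∀ i, x i ∈ Set.Icc (0:ℝ) 1}

private def bdr (k : ℕ) : Set (EuclideanSpace ℝ (Fin (k + 1))) :=
  {x | x ∈ cub k ∧ ∃ i, x i = 0 ∨ x i = 1}

private def fce (k : ℕ) (i : Fin (k + 1)) (e : ℝ) : Set (EuclideanSpace ℝ (Fin (k + 1))) :=
  {x | x ∈ cub k ∧ x i = e}

private lemma cub_pre (k : ℕ) : cub k = (EuclideanSpace.equiv (Fin (k + 1)) ℝ).toHomeomorph ⁻¹'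
    (Set.pi Set.univ fun _ => Set.Icc (0:ℝ) 1) := by
  ext x
  exact ⟨fun h i _ => h i, fun h i => h i trivial⟩

private lemma cub_closed (k : ℕ) : IsClosed (cub k) := by
  rw [cub_pre]
  exact (isClosed_set_pi fun _ _ => isClosed_Icc).preimage (Homeomorph.continuous _)

private lemma cub_int (k : ℕ) : interior (cub k) = {x | ∀ i, x i ∈ Set.Ioo (0:ℝ) 1} := by
  rw [cub_pre, ← Homeomorph.preimage_interior, interior_pi_set Set.finite_univ]
  ext x
  simp [Set.mem_pi, interior_Icc]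

private lemma cub_frontier (k : ℕ) : frontier (cub k) = bdr k := by
  rw [(cub_closed k).frontier_eq, cub_int]
  ext x
  constructor
  · rintro ⟨hx, hn⟩
    refine ⟨hx, ?_⟩
    by_contra hcon
    push Not at hcon
    exact hn fun i => ⟨lt_of_le_of_ne (hx i).1 (Ne.symm (hcon i).1),
      lt_of_le_of_ne (hx i).2 (hcon i).2⟩
  · rintro ⟨hx, i, hi⟩
    refine ⟨hx, fun hn => ?_⟩
    have := hn i
    rcases hi with hi | hi
    · exact absurd hi this.1.ne'
    · exact absurd hi this.2.ne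

private lemma cub_convex (k : ℕ) : Convex ℝ (cub k) := by
  intro x hx y hy a b ha hb hab i
  exact convex_Icc (0:ℝ) 1 (hx i) (hy i) ha hb hab

private lemma cub_bdd (k : ℕ) : Bornology.IsBounded (cub k) := by
  have h : IsCompact (cub k) := by
    rw [cub_pre]
    exact ((EuclideanSpace.equiv (Fin (k + 1)) ℝ).toHomeomorph.isCompact_preimage).2
      (isCompact_univ_pi fun _ => isCompact_Icc)
  exact h.isBounded

private lemma cub_ne (k : ℕ) : (interior (cub k)).Nonempty := by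
  rw [cub_int]
  refine ⟨WithLp.toLp 2 fun _ => 1 / 2, fun i => ?_⟩
  constructor <;> norm_num

private lemma extend_cub {n k : ℕ} (hX : NConn n X) (hk : k ≤ n)
    (F : EuclideanSpace ℝ (Fin (k + 1)) → X) (hF : ContinuousOn F (bdr k)) :
    ∃ G : EuclideanSpace ℝ (Fin (k + 1)) → X, ContinuousOn G (cub k) ∧ ∀ x ∈ bdr k, G x = F x := by
  classical
  obtain ⟨h, -, hcl, hfr⟩ := exists_homeomorph_image_interior_closure_frontier_eq_unitBall
    (cub_convex k) (cub_ne k) (cub_bdd k)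
  rw [(cub_closed k).closure_eq] at hcl
  rw [cub_frontier] at hfr
  have h1 : ∀ y ∈ sphere (0 : EuclideanSpace ℝ (Fin (k + 1))) 1, h.symm y ∈ bdr k := by
    intro y hy
    rw [← hfr] at hy
    obtain ⟨x, hx, rfl⟩ := hy
    rwa [h.symm_apply_apply]
  have h2 : ∀ x ∈ cub k, h x ∈ closedBall (0 : EuclideanSpace ℝ (Fin (k + 1))) 1 := by
    intro x hx
    rw [← hcl]
    exact ⟨x, hx, rfl⟩
  have h3 : ∀ x ∈ bdr k, h x ∈ sphere (0 : EuclideanSpace ℝ (Fin (k + 1))) 1 := by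
    intro x hx
    rw [← hfr]
    exact ⟨x, hx, rfl⟩
  let f : C(sphere (0 : EuclideanSpace ℝ (Fin (k + 1))) 1, X) :=
    ⟨fun y => F (h.symm y), hF.comp_continuous (h.symm.continuous.comp continuous_subtype_val)
      fun y => h1 y y.2⟩
  obtain ⟨g, hg⟩ := hX.2 k hk f
  refine ⟨fun x => if hx : h x ∈ closedBall (0 : EuclideanSpace ℝ (Fin (k + 1))) 1 then
    g ⟨h x, hx⟩ else F x, ?_, ?_⟩
  · rw [continuousOn_iff_continuous_domRestrict]
    have h4 : (cub k).domRestrict (fun x => if hx : h x ∈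
        closedBall (0 : EuclideanSpace ℝ (Fin (k + 1))) 1 then g ⟨h x, hx⟩ else F x) =
        fun x : cub k => g ⟨h x, h2 x x.2⟩ := by
      funext x
      exact dif_pos (h2 x x.2)
    rw [h4]
    exact g.continuous.comp ((h.continuous.comp continuous_subtype_val).subtype_mk _)
  · intro x hx
    simp only
    rw [dif_pos (h2 x hx.1)]
    have h5 := hg ⟨h x, h3 x hx⟩
    rw [h5]
    change F (h.symm (h x)) = F x
    rw [h.symm_apply_apply]

private lemma glue2 {E : Type*} [TopologicalSpace E] {A B : Set E} (hA : IsClosed A)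
    (hB : IsClosed B) {f g : E → X} (hf : ContinuousOn f A) (hg : ContinuousOn g B)
    (h : ∀ x ∈ A, x ∈ B → f x = g x) :
    ∃ F : E → X, ContinuousOn F (A ∪ B) ∧ (∀ x ∈ A, F x = f x) ∧ ∀ x ∈ B, F x = g x := by
  classical
  have h1 : ∀ x ∈ A, (if x ∈ A then f x else g x) = f x := fun x hx => if_pos hx
  have h2 : ∀ x ∈ B, (if x ∈ A then f x else g x) = g x := by
    intro x hx
    by_cases hxA : x ∈ A
    · rw [if_pos hxA]; exact h x hxA hx
    · rw [if_neg hxA]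
  exact ⟨fun x => if x ∈ A then f x else g x,
    ContinuousOn.union_of_isClosed (hf.congr h1) (hg.congr h2) hA hB, h1, h2⟩

private lemma fce_closed (k : ℕ) (i : Fin (k + 1)) (e : ℝ) : IsClosed (fce k i e) := by
  have h1 : Continuous fun x : EuclideanSpace ℝ (Fin (k + 1)) => x i := by fun_prop
  exact (cub_closed k).inter (isClosed_eq h1 continuous_const)

private noncomputable def pj : ℝ → I := Set.projIcc 0 1 zero_le_one

private lemma pj_cont : Continuous pj := continuous_projIcc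

private lemma pj_zero : pj 0 = 0 := Set.projIcc_left _

private lemma pj_one : pj 1 = 1 := Set.projIcc_right _

private lemma pj_coe (x : I) : pj x = x := Set.projIcc_val _ x

private lemma co_cont {k : ℕ} (i : Fin (k + 1)) :
    Continuous fun x : EuclideanSpace ℝ (Fin (k + 1)) => pj (x i) :=
  pj_cont.comp (by fun_prop)

theorem fill_path (hX : NConn 2 X) (x y : X) : ∃ p : C(I, X), p 0 = x ∧ p 1 = y := by
  have h0 : ContinuousOn (fun _ : EuclideanSpace ℝ (Fin (0 + 1)) => x) (fce 0 0 0) :=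
    continuousOn_const
  have h1 : ContinuousOn (fun _ : EuclideanSpace ℝ (Fin (0 + 1)) => y) (fce 0 0 1) :=
    continuousOn_const
  obtain ⟨F, hF, hF0, hF1⟩ := glue2 (fce_closed 0 0 0) (fce_closed 0 0 1) h0 h1 (by
    rintro z ⟨-, hz⟩ ⟨-, hz'⟩
    rw [hz] at hz'
    exact absurd hz' zero_ne_one)
  obtain ⟨G, hG, hGF⟩ := extend_cub hX (Nat.zero_le 2) F (hF.mono (by
    rintro z ⟨hz, i, hi⟩
    have : i = 0 := Fin.fin_one_eq_zero i
    subst this
    rcases hi with hi | hi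
    · exact Or.inl ⟨hz, hi⟩
    · exact Or.inr ⟨hz, hi⟩))
  have hc : ∀ a : I, (WithLp.toLp 2 (fun _ => (a : ℝ)) : EuclideanSpace ℝ (Fin (0 + 1))) ∈ cub 0 :=
    fun a i => a.2
  refine ⟨⟨fun a => G (WithLp.toLp 2 (fun _ => (a : ℝ))), ?_⟩, ?_, ?_⟩
  · exact hG.comp_continuous ((PiLp.continuous_toLp 2 _).comp
      (continuous_pi fun _ => continuous_subtype_val)) hc
  · change G _ = x
    rw [hGF _ ⟨hc 0, 0, Or.inl rfl⟩, hF0 _ ⟨hc 0, rfl⟩]
  · change G _ = y
    rw [hGF _ ⟨hc 1, 0, Or.inr rfl⟩, hF1 _ ⟨hc 1, rfl⟩]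

theorem fill_sq (hX : NConn 2 X) (b t l r : C(I, X)) (h00 : b 0 = l 0) (h10 : b 1 = r 0)
    (h01 : t 0 = l 1) (h11 : t 1 = r 1) :
    ∃ Q : Sq X, (∀ s, Q (s, 0) = b s) ∧ (∀ s, Q (s, 1) = t s) ∧ (∀ u, Q (0, u) = l u) ∧
      (∀ u, Q (1, u) = r u) := by
  have cl' : ContinuousOn (fun z : EuclideanSpace ℝ (Fin (1 + 1)) => l (pj (z 1))) (fce 1 0 0) :=
    (l.continuous.comp (co_cont 1)).continuousOn
  have cr : ContinuousOn (fun z : EuclideanSpace ℝ (Fin (1 + 1)) => r (pj (z 1))) (fce 1 0 1) :=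
    (r.continuous.comp (co_cont 1)).continuousOn
  have cb : ContinuousOn (fun z : EuclideanSpace ℝ (Fin (1 + 1)) => b (pj (z 0))) (fce 1 1 0) :=
    (b.continuous.comp (co_cont 0)).continuousOn
  have ct : ContinuousOn (fun z : EuclideanSpace ℝ (Fin (1 + 1)) => t (pj (z 0))) (fce 1 1 1) :=
    (t.continuous.comp (co_cont 0)).continuousOn
  obtain ⟨F1, hF1, hFl, hFr⟩ := glue2 (fce_closed 1 0 0) (fce_closed 1 0 1) cl' cr (by
    rintro z ⟨-, hz⟩ ⟨-, hz'⟩
    rw [hz] at hz'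
    exact absurd hz' zero_ne_one)
  obtain ⟨F2, hF2, hFb, hFt⟩ := glue2 (fce_closed 1 1 0) (fce_closed 1 1 1) cb ct (by
    rintro z ⟨-, hz⟩ ⟨-, hz'⟩
    rw [hz] at hz'
    exact absurd hz' zero_ne_one)
  obtain ⟨F, hF, hFa, hFc⟩ := glue2 ((fce_closed 1 0 0).union (fce_closed 1 0 1))
    ((fce_closed 1 1 0).union (fce_closed 1 1 1)) hF1 hF2 (by
    rintro z (hz | hz) (hz' | hz')
    · rw [hFl z hz, hFb z hz', hz.2, hz'.2, pj_zero, h00]
    · rw [hFl z hz, hFt z hz', hz.2, hz'.2, pj_zero, pj_one, h01]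
    · rw [hFr z hz, hFb z hz', hz.2, hz'.2, pj_zero, pj_one, h10]
    · rw [hFr z hz, hFt z hz', hz.2, hz'.2, pj_one, h11])
  obtain ⟨G, hG, hGF⟩ := extend_cub hX (Nat.le_succ 1) F (hF.mono (by
    rintro z ⟨hz, i, hi⟩
    fin_cases i
    · rcases hi with hi | hi
      · exact Or.inl (Or.inl ⟨hz, hi⟩)
      · exact Or.inl (Or.inr ⟨hz, hi⟩)
    · rcases hi with hi | hi
      · exact Or.inr (Or.inl ⟨hz, hi⟩)
      · exact Or.inr (Or.inr ⟨hz, hi⟩)))
  let e : I × I → EuclideanSpace ℝ (Fin (1 + 1)) := fun p => WithLp.toLp 2 ![(p.1 : ℝ), (p.2 : ℝ)]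
  have e0 : ∀ p, e p 0 = (p.1 : ℝ) := fun p => rfl
  have e1 : ∀ p, e p 1 = (p.2 : ℝ) := fun p => rfl
  have he : Continuous e := by
    refine (PiLp.continuous_toLp 2 _).comp (continuous_pi fun i => ?_)
    fin_cases i
    · exact continuous_subtype_val.comp continuous_fst
    · exact continuous_subtype_val.comp continuous_snd
  have hc : ∀ p, e p ∈ cub 1 := by
    intro p i
    fin_cases i
    · exact p.1.2
    · exact p.2.2
  refine ⟨⟨fun p => G (e p), hG.comp_continuous he hc⟩, fun s => ?_, fun s => ?_, fun u => ?_,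
    fun u => ?_⟩
  · have hm : e (s, 0) ∈ fce 1 1 0 := ⟨hc _, rfl⟩
    change G (e (s, 0)) = b s
    rw [hGF _ ⟨hc _, 1, Or.inl rfl⟩, hFc _ (Or.inl hm), hFb _ hm, e0, pj_coe]
  · have hm : e (s, 1) ∈ fce 1 1 1 := ⟨hc _, rfl⟩
    change G (e (s, 1)) = t s
    rw [hGF _ ⟨hc _, 1, Or.inr rfl⟩, hFc _ (Or.inr hm), hFt _ hm, e0, pj_coe]
  · have hm : e (0, u) ∈ fce 1 0 0 := ⟨hc _, rfl⟩
    change G (e (0, u)) = l u
    rw [hGF _ ⟨hc _, 0, Or.inl rfl⟩, hFa _ (Or.inl hm), hFl _ hm, e1, pj_coe]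
  · have hm : e (1, u) ∈ fce 1 0 1 := ⟨hc _, rfl⟩
    change G (e (1, u)) = r u
    rw [hGF _ ⟨hc _, 0, Or.inr rfl⟩, hFa _ (Or.inr hm), hFr _ hm, e1, pj_coe]

theorem fill_cube (hX : NConn 2 X) (x0 x1 y0 y1 z0 z1 : Sq X)
    (hxy00 : ∀ c, x0 (0, c) = y0 (0, c)) (hxy01 : ∀ c, x0 (1, c) = y1 (0, c))
    (hxy10 : ∀ c, x1 (0, c) = y0 (1, c)) (hxy11 : ∀ c, x1 (1, c) = y1 (1, c))
    (hxz00 : ∀ b, x0 (b, 0) = z0 (0, b)) (hxz01 : ∀ b, x0 (b, 1) = z1 (0, b))
    (hxz10 : ∀ b, x1 (b, 0) = z0 (1, b)) (hxz11 : ∀ b, x1 (b, 1) = z1 (1, b))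
    (hyz00 : ∀ a, y0 (a, 0) = z0 (a, 0)) (hyz01 : ∀ a, y0 (a, 1) = z1 (a, 0))
    (hyz10 : ∀ a, y1 (a, 0) = z0 (a, 1)) (hyz11 : ∀ a, y1 (a, 1) = z1 (a, 1)) :
    ∃ C : Cu X, faceX 0 C = x0 ∧ faceX 1 C = x1 ∧ faceY 0 C = y0 ∧ faceY 1 C = y1 ∧
      faceZ 0 C = z0 ∧ faceZ 1 C = z1 := by
  have c12 : Continuous fun z : EuclideanSpace ℝ (Fin (2 + 1)) => (pj (z 1), pj (z 2)) :=
    (co_cont 1).prodMk (co_cont 2)
  have c02 : Continuous fun z : EuclideanSpace ℝ (Fin (2 + 1)) => (pj (z 0), pj (z 2)) :=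
    (co_cont 0).prodMk (co_cont 2)
  have c01 : Continuous fun z : EuclideanSpace ℝ (Fin (2 + 1)) => (pj (z 0), pj (z 1)) :=
    (co_cont 0).prodMk (co_cont 1)
  obtain ⟨F1, hF1, hx0, hx1⟩ := glue2 (fce_closed 2 0 0) (fce_closed 2 0 1)
    (x0.continuous.comp c12).continuousOn (x1.continuous.comp c12).continuousOn (by
    rintro z ⟨-, hz⟩ ⟨-, hz'⟩
    rw [hz] at hz'
    exact absurd hz' zero_ne_one)
  obtain ⟨F2, hF2, hy0, hy1⟩ := glue2 (fce_closed 2 1 0) (fce_closed 2 1 1)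
    (y0.continuous.comp c02).continuousOn (y1.continuous.comp c02).continuousOn (by
    rintro z ⟨-, hz⟩ ⟨-, hz'⟩
    rw [hz] at hz'
    exact absurd hz' zero_ne_one)
  obtain ⟨F3, hF3, hz0, hz1⟩ := glue2 (fce_closed 2 2 0) (fce_closed 2 2 1)
    (z0.continuous.comp c01).continuousOn (z1.continuous.comp c01).continuousOn (by
    rintro z ⟨-, hz⟩ ⟨-, hz'⟩
    rw [hz] at hz'
    exact absurd hz' zero_ne_one)
  have k1 := (fce_closed 2 0 0).union (fce_closed 2 0 1)
  have k2 := (fce_closed 2 1 0).union (fce_closed 2 1 1)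
  have k3 := (fce_closed 2 2 0).union (fce_closed 2 2 1)
  obtain ⟨F4, hF4, hxx, hyy⟩ := glue2 k1 k2 hF1 hF2 (by
    rintro z (hz | hz) (hz' | hz')
    · rw [hx0 z hz, hy0 z hz']
      simp only [Function.comp_apply, hz.2, hz'.2, pj_zero, hxy00]
    · rw [hx0 z hz, hy1 z hz']
      simp only [Function.comp_apply, hz.2, hz'.2, pj_zero, pj_one, hxy01]
    · rw [hx1 z hz, hy0 z hz']
      simp only [Function.comp_apply, hz.2, hz'.2, pj_zero, pj_one, hxy10]
    · rw [hx1 z hz, hy1 z hz']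
      simp only [Function.comp_apply, hz.2, hz'.2, pj_one, hxy11])
  obtain ⟨F, hF, hxy, hzz⟩ := glue2 (k1.union k2) k3 hF4 hF3 (by
    rintro z ((hz | hz) | (hz | hz)) (hz' | hz')
    · rw [hxx z (Or.inl hz), hx0 z hz, hz0 z hz']
      simp only [Function.comp_apply, hz.2, hz'.2, pj_zero, hxz00]
    · rw [hxx z (Or.inl hz), hx0 z hz, hz1 z hz']
      simp only [Function.comp_apply, hz.2, hz'.2, pj_zero, pj_one, hxz01]
    · rw [hxx z (Or.inr hz), hx1 z hz, hz0 z hz']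
      simp only [Function.comp_apply, hz.2, hz'.2, pj_zero, pj_one, hxz10]
    · rw [hxx z (Or.inr hz), hx1 z hz, hz1 z hz']
      simp only [Function.comp_apply, hz.2, hz'.2, pj_one, hxz11]
    · rw [hyy z (Or.inl hz), hy0 z hz, hz0 z hz']
      simp only [Function.comp_apply, hz.2, hz'.2, pj_zero, hyz00]
    · rw [hyy z (Or.inl hz), hy0 z hz, hz1 z hz']
      simp only [Function.comp_apply, hz.2, hz'.2, pj_zero, pj_one, hyz01]
    · rw [hyy z (Or.inr hz), hy1 z hz, hz0 z hz']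
      simp only [Function.comp_apply, hz.2, hz'.2, pj_zero, pj_one, hyz10]
    · rw [hyy z (Or.inr hz), hy1 z hz, hz1 z hz']
      simp only [Function.comp_apply, hz.2, hz'.2, pj_one, hyz11])
  obtain ⟨G, hG, hGF⟩ := extend_cub hX (le_refl 2) F (hF.mono (by
    rintro z ⟨hz, i, hi⟩
    fin_cases i
    · rcases hi with hi | hi
      · exact Or.inl (Or.inl (Or.inl ⟨hz, hi⟩))
      · exact Or.inl (Or.inl (Or.inr ⟨hz, hi⟩))
    · rcases hi with hi | hi
      · exact Or.inl (Or.inr (Or.inl ⟨hz, hi⟩))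
      · exact Or.inl (Or.inr (Or.inr ⟨hz, hi⟩))
    · rcases hi with hi | hi
      · exact Or.inr (Or.inl ⟨hz, hi⟩)
      · exact Or.inr (Or.inr ⟨hz, hi⟩)))
  let e : I × I × I → EuclideanSpace ℝ (Fin (2 + 1)) := fun p =>
    WithLp.toLp 2 ![(p.1 : ℝ), (p.2.1 : ℝ), (p.2.2 : ℝ)]
  have e0 : ∀ p, e p 0 = (p.1 : ℝ) := fun p => rfl
  have e1 : ∀ p, e p 1 = (p.2.1 : ℝ) := fun p => rfl
  have e2 : ∀ p, e p 2 = (p.2.2 : ℝ) := fun p => rfl
  have he : Continuous e := by
    refine (PiLp.continuous_toLp 2 _).comp (continuous_pi fun i => ?_)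
    fin_cases i
    · exact continuous_subtype_val.comp continuous_fst
    · exact continuous_subtype_val.comp (continuous_fst.comp continuous_snd)
    · exact continuous_subtype_val.comp (continuous_snd.comp continuous_snd)
  have hc : ∀ p, e p ∈ cub 2 := by
    intro p i
    fin_cases i
    · exact p.1.2
    · exact p.2.1.2
    · exact p.2.2.2
  refine ⟨⟨fun p => G (e p), hG.comp_continuous he hc⟩, ?_, ?_, ?_, ?_, ?_, ?_⟩
  · ext p
    have hm : e (0, p.1, p.2) ∈ fce 2 0 0 := ⟨hc _, rfl⟩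
    change G (e (0, p.1, p.2)) = x0 p
    rw [hGF _ ⟨hc _, 0, Or.inl rfl⟩, hxy _ (Or.inl (Or.inl hm)), hxx _ (Or.inl hm), hx0 _ hm]
    simp only [Function.comp_apply, e1, e2, pj_coe]
  · ext p
    have hm : e (1, p.1, p.2) ∈ fce 2 0 1 := ⟨hc _, rfl⟩
    change G (e (1, p.1, p.2)) = x1 p
    rw [hGF _ ⟨hc _, 0, Or.inr rfl⟩, hxy _ (Or.inl (Or.inr hm)), hxx _ (Or.inr hm), hx1 _ hm]
    simp only [Function.comp_apply, e1, e2, pj_coe]
  · ext p
    have hm : e (p.1, 0, p.2) ∈ fce 2 1 0 := ⟨hc _, rfl⟩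
    change G (e (p.1, 0, p.2)) = y0 p
    rw [hGF _ ⟨hc _, 1, Or.inl rfl⟩, hxy _ (Or.inr (Or.inl hm)), hyy _ (Or.inl hm), hy0 _ hm]
    simp only [Function.comp_apply, e0, e2, pj_coe]
  · ext p
    have hm : e (p.1, 1, p.2) ∈ fce 2 1 1 := ⟨hc _, rfl⟩
    change G (e (p.1, 1, p.2)) = y1 p
    rw [hGF _ ⟨hc _, 1, Or.inr rfl⟩, hxy _ (Or.inr (Or.inr hm)), hyy _ (Or.inr hm), hy1 _ hm]
    simp only [Function.comp_apply, e0, e2, pj_coe]
  · ext p
    have hm : e (p.1, p.2, 0) ∈ fce 2 2 0 := ⟨hc _, rfl⟩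
    change G (e (p.1, p.2, 0)) = z0 p
    rw [hGF _ ⟨hc _, 2, Or.inl rfl⟩, hzz _ (Or.inl hm), hz0 _ hm]
    simp only [Function.comp_apply, e0, e1, pj_coe]
  · ext p
    have hm : e (p.1, p.2, 1) ∈ fce 2 2 1 := ⟨hc _, rfl⟩
    change G (e (p.1, p.2, 1)) = z1 p
    rw [hGF _ ⟨hc _, 2, Or.inr rfl⟩, hzz _ (Or.inr hm), hz1 _ hm]
    simp only [Function.comp_apply, e0, e1, pj_coe]

end Pool.Agent.CTB
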