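import Pool.Agent.CT.Bar.Uniq

/-!
CT-B-Glue: glueing two torus squares along a side.

PLAN. Glue: `Q(s,t) = Q1(2s,t)` for `s ≤ 1/2`, `Q2(2s-1,t)` for `s ≥ 1/2` (write `k : ℝ → I` for
`Set.projIcc 0 1 zero_le_one`; `Q(s,t) = if s ≤ 1/2 then Q1(k(2s),t) else Q2(k(2s-1),t)`, continuous by
`Continuous.if_le`): a torus square for `(v + v', w)` (`Q(1,t) = Q2(1,t) = v' + Q2(0,t) = v' + Q1(1,t) =
v' + v + Q1(0,t)`). The cube `C(s,t,r) = Q(k(s(1+r)/2), t)` has faces: `r = 0`: `Q1`; `r = 1`: `Q`;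
`s = 0`: `(t,r) ↦ Q(0,t)`, degenerate; `s = 1`: `(t,r) ↦ Q2(r,t)`, i.e. `tpSq Q2`;
`t = 0`: `B(s,r) = Q(k(s(1+r)/2),0)`, `t = 1`: `trSq w B`. By `cl_cube`:
`(cl (tpSq Q2) - 0) - (cl (trSq w B) - cl B) + (cl Q - cl Q1) = 0`.
-/

namespace Pool.Agent.CTB

open unitInterval

/-- The transposed square. -/
def tpSq {X : Type*} [TopologicalSpace X] (Q : Sq X) : Sq X := Q.comp ⟨fun p => (p.2, p.1), by fun_prop⟩

@[simp] lemma tpSq_apply {X : Type*} [TopologicalSpace X] (Q : Sq X) (p : I × I) :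
    tpSq Q p = Q (p.2, p.1) := rfl

variable {L X : Type*} [AddCommGroup L] [TopologicalSpace X] [AddAction L X]
  [ContinuousConstVAdd L X]

omit [ContinuousConstVAdd L X] in
lemma tpSq_torus (v w : L) (Q : Sq X) (h : TorusSq v w Q) : TorusSq w v (tpSq Q) :=
  ⟨fun t => h.2 t, fun s => h.1 s⟩

/-- the glued square with a real first variable -/
private noncomputable def glR (Q1 Q2 : Sq X) (p : ℝ × I) : X :=
  if p.1 ≤ 1 / 2 then Q1 (Set.projIcc 0 1 zero_le_one (2 * p.1), p.2)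
  else Q2 (Set.projIcc 0 1 zero_le_one (2 * p.1 - 1), p.2)

omit [AddCommGroup L] [AddAction L X] [ContinuousConstVAdd L X] in
private theorem glR_cont (Q1 Q2 : Sq X) (h12 : ∀ t, Q2 (0, t) = Q1 (1, t)) :
    Continuous (glR Q1 Q2) := by
  unfold glR
  refine Continuous.if_le ?_ ?_ continuous_fst continuous_const ?_
  · exact Q1.continuous.comp ((continuous_projIcc.comp (continuous_const.mul continuous_fst)).prodMk
      continuous_snd)
  · exact Q2.continuous.comp ((continuous_projIcc.comp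
      ((continuous_const.mul continuous_fst).sub continuous_const)).prodMk continuous_snd)
  · intro p hp
    rw [hp]
    have e1 : Set.projIcc (0 : ℝ) 1 zero_le_one (2 * (1 / 2)) = 1 := by
      rw [Set.projIcc_of_right_le zero_le_one (by norm_num)]
      rfl
    have e2 : Set.projIcc (0 : ℝ) 1 zero_le_one (2 * (1 / 2) - 1) = 0 := by
      rw [Set.projIcc_of_le_left zero_le_one (by norm_num)]
      rfl
    rw [e1, e2, h12]

omit [AddCommGroup L] [AddAction L X] [ContinuousConstVAdd L X] in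
private theorem glR_left (Q1 Q2 : Sq X) (s t : I) : glR Q1 Q2 ((s : ℝ) / 2, t) = Q1 (s, t) := by
  unfold glR
  have h : (s : ℝ) / 2 ≤ 1 / 2 := by
    have := s.2.2
    linarith
  rw [if_pos h]
  have e : (2 : ℝ) * ((s : ℝ) / 2) = s := by ring
  simp only [e, Set.projIcc_val]

omit [AddCommGroup L] [AddAction L X] [ContinuousConstVAdd L X] in
private theorem glR_right (Q1 Q2 : Sq X) (h12 : ∀ t, Q2 (0, t) = Q1 (1, t)) (r t : I) :
    glR Q1 Q2 ((1 + (r : ℝ)) / 2, t) = Q2 (r, t) := by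
  unfold glR
  by_cases h : (1 + (r : ℝ)) / 2 ≤ 1 / 2
  · have hr : (r : ℝ) = 0 := by
      have := r.2.1
      linarith
    have hr' : r = 0 := Subtype.ext hr
    rw [if_pos h]
    subst hr'
    have e1 : Set.projIcc (0 : ℝ) 1 zero_le_one (2 * ((1 + ((0 : I) : ℝ)) / 2)) = 1 := by
      rw [Set.projIcc_of_right_le zero_le_one (by simp)]
      rfl
    simp only [e1]
    rw [h12]
  · rw [if_neg h]
    have e : (2 : ℝ) * ((1 + (r : ℝ)) / 2) - 1 = r := by ring
    simp only [e, Set.projIcc_val]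

omit [ContinuousConstVAdd L X] in
private theorem glR_one (v v' w : L) (Q1 Q2 : Sq X) (h1 : TorusSq v w Q1) (h2 : TorusSq v' w Q2)
    (x : ℝ) : glR Q1 Q2 (x, 1) = w +ᵥ glR Q1 Q2 (x, 0) := by
  unfold glR
  by_cases h : x ≤ 1 / 2
  · simp only [if_pos h]
    exact h1.2 _
  · simp only [if_neg h]
    exact h2.2 _

/-- Glueing along a side, and the cube. -/
theorem cl_glue (v v' w : L) (Q1 Q2 : Sq X) (h1 : TorusSq v w Q1) (h2 : TorusSq v' w Q2)
    (h12 : ∀ t, Q2 (0, t) = Q1 (1, t)) :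
    ∃ Q : Sq X, TorusSq (v + v') w Q ∧ cl L Q = cl L Q1 - cl L (tpSq Q2) := by
  have hc := glR_cont Q1 Q2 h12
  set Q : Sq X := ⟨fun p => glR Q1 Q2 ((p.1 : ℝ), p.2), hc.comp (by fun_prop)⟩ with hQ
  have hQa : ∀ s t : I, Q (s, t) = glR Q1 Q2 ((s : ℝ), t) := fun _ _ => rfl
  set C : Cu X := ⟨fun p => glR Q1 Q2 ((p.1 : ℝ) * (1 + (p.2.2 : ℝ)) / 2, p.2.1),
    hc.comp (by fun_prop)⟩ with hC
  have hCa : ∀ s t r : I, C (s, t, r) = glR Q1 Q2 ((s : ℝ) * (1 + (r : ℝ)) / 2, t) :=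
    fun _ _ _ => rfl
  refine ⟨Q, ⟨fun t => ?_, fun s => ?_⟩, ?_⟩
  · have e1 : Q (1, t) = Q2 (1, t) := by
      rw [hQa, ← glR_right Q1 Q2 h12 1 t]
      norm_num
    have e0 : Q (0, t) = Q1 (0, t) := by
      rw [hQa, ← glR_left Q1 Q2 0 t]
      norm_num
    rw [e1, e0, h2.1, h12, h1.1, vadd_vadd, add_comm v' v]
  · rw [hQa, hQa]
    exact glR_one v v' w Q1 Q2 h1 h2 _
  · have f1 : faceX 1 C = tpSq Q2 := by
      ext ⟨t, r⟩
      rw [faceX_apply, hCa, tpSq_apply, ← glR_right Q1 Q2 h12 r t]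
      simp
    have f0 : Degen (faceX 0 C) := by
      left
      intro t r r'
      rw [faceX_apply, faceX_apply, hCa, hCa]
      simp
    have g1 : faceY 1 C = trSq w (faceY 0 C) := by
      ext ⟨s, r⟩
      rw [faceY_apply, trSq_apply, faceY_apply, hCa, hCa]
      exact glR_one v v' w Q1 Q2 h1 h2 _
    have k1 : faceZ 1 C = Q := by
      ext ⟨s, t⟩
      rw [faceZ_apply, hCa, hQa]
      congr 2
      norm_num
    have k0 : faceZ 0 C = Q1 := by
      ext ⟨s, t⟩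
      rw [faceZ_apply, hCa, ← glR_left Q1 Q2 s t]
      simp
    have h := cl_cube L C
    rw [f1, cl_degen L _ f0, g1, cl_tr, k1, k0, sub_zero, sub_self, sub_zero] at h
    have h3 : cl L Q = cl L Q1 - cl L (tpSq Q2) := by
      have h4 : cl L Q - cl L Q1 = - cl L (tpSq Q2) := by
        rw [eq_neg_iff_add_eq_zero, add_comm]
        exact h
      rw [sub_eq_iff_eq_add] at h4
      rw [h4]
      abel
    exact h3

end Pool.Agent.CTB
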