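import Pool.Agent.CT.Bar.Add

/-!
CT-B-Main: the alternating form (assembly of part S4).

PLAN of `bar_main`. Let `V ⊆ Ch L X` be the span of the classes `cl Q`, `Q ∈ S`. Claim: there is a linear
functional `φ : Ch L X → ℝ` with `φ (cl Q) = c Q` for `Q ∈ S`. For this: if `∑ a_Q cl Q = 0` (finite sum over
`Q ∈ S`) then `∑ a_Q c Q = 0`: the element `∑ a_Q single Q` of `Sq X →₀ ℝ` is in the span of `Rels`, so it is
a finite combination of relations (`Submodule.mem_span_iff_exists_finset_subset` or
`Submodule.mem_span_finite_of_mem_span`); let `K` be the union of the images in `Y` of the finitely many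
squares and cubes involved (compact: finite unions of images of compact sets); take `f` from `hK`; the
functional `z ↦ z.sum (fun Q a => a * f (π.comp Q))` kills the relations over `K` (translates:
`π.comp (trSq w Q) = π.comp Q`; cubes: `faceX e (π.comp C) = π.comp (faceX e C)`; degenerate squares) and has
the values `c Q` on `Q ∈ S` over `K`. Existence of `φ`: e.g. consider the submodule
`R' = span (Rels) ⊔ span {single Q 1 - single Q' ...}`... simplest: the linear map
`F : (S →₀ ℝ) → Ch L X`, `single Q ↦ cl Q`, and `c : (S →₀ ℝ) → ℝ`; `ker F ≤ ker c` by the claim, so `c`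
factors through `F` on the range (`LinearMap.exists_extend`, or `exists_dual_forall_apply_eq..`,
`LinearMap.ker_le_ker_iff_range..`; over a field every linear map on a subspace extends).
Then `J' v w = φ (J v w)` with `J` from `exists_I`.
-/

namespace Pool.Agent.CTB

open unitInterval

variable {L X Y : Type*} [AddCommGroup L] [TopologicalSpace X] [AddAction L X]
  [ContinuousConstVAdd L X] [TopologicalSpace Y]

/-- Classes of torus squares form an alternating biadditive map. -/
theorem exists_I (hX : NConn 2 X) :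
    ∃ J : L →+ L →+ Ch L X, (∀ v, J v v = 0) ∧
      ∀ (v w : L) (Q : Sq X), TorusSq v w Q → cl L Q = J v w := by
  classical
  choose T hT using fun v w : L => exists_torusSq hX v w
  have key : ∀ v w (Q : Sq X), TorusSq v w Q → cl L Q = cl L (T v w) := fun v w Q h =>
    cl_torus_eq hX v w Q (T v w) h (hT v w)
  refine ⟨AddMonoidHom.mk' (fun v => AddMonoidHom.mk' (fun w => cl L (T v w)) ?_) ?_, ?_, ?_⟩
  · intro w w'
    obtain ⟨Q1, Q2, Q, h1, h2, h, e⟩ := exists_add_right hX v w w'
    rw [← key _ _ _ h, ← key _ _ _ h1, ← key _ _ _ h2, e]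
  · intro v v'
    ext w
    obtain ⟨Q1, Q2, Q, h1, h2, h, e⟩ := exists_add_left hX v v' w
    simp only [AddMonoidHom.mk'_apply, AddMonoidHom.add_apply]
    rw [← key _ _ _ h, ← key _ _ _ h1, ← key _ _ _ h2, e]
  · intro v
    obtain ⟨Q, h, e⟩ := cl_self hX v
    simp only [AddMonoidHom.mk'_apply]
    rw [← key _ _ _ h, e]
  · intro v w Q h
    simp only [AddMonoidHom.mk'_apply]
    exact key v w Q h

/-- the functional on formal sums of squares given by a cochain on `Y` -/
private noncomputable def funF (π : C(X, Y)) (f : Sq Y → ℝ) : (Sq X →₀ ℝ) →ₗ[ℝ] ℝ :=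
  Finsupp.linearCombination ℝ fun Q => f (π.comp Q)

omit [AddCommGroup L] [AddAction L X] [ContinuousConstVAdd L X] in
private theorem funF_single (π : C(X, Y)) (f : Sq Y → ℝ) (Q : Sq X) :
    funF π f (Finsupp.single Q 1) = f (π.comp Q) := by
  rw [funF, Finsupp.linearCombination_single, one_smul]

/-- every relation is killed by the cocycles on a sufficiently large compact set -/
private theorem rel_killed (π : C(X, Y)) (hπ : ∀ (w : L) (x : X), π (w +ᵥ x) = π x)
    (z : Sq X →₀ ℝ) (hz : z ∈ Rels L X) :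
    ∃ K' : Set Y, IsCompact K' ∧ ∀ (K : Set Y) (f : Sq Y → ℝ), K' ⊆ K → CocycleOn K f →
      funF π f z = 0 := by
  rcases hz with (⟨w, Q, rfl⟩ | ⟨C, rfl⟩) | ⟨Q, hQ, rfl⟩
  · refine ⟨∅, isCompact_empty, fun K f _ _ => ?_⟩
    have h : π.comp (trSq w Q) = π.comp Q := by
      ext p
      exact hπ w (Q p)
    rw [map_sub, funF_single, funF_single, h, sub_self]
  · refine ⟨Set.range (π.comp C), isCompact_range (π.comp C).continuous, fun K f hK hf => ?_⟩
    have h := hf.cube (π.comp C) fun p => hK ⟨p, rfl⟩
    rw [bd, map_add, map_sub, map_sub, map_sub, map_sub, funF_single, funF_single, funF_single,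
      funF_single, funF_single, funF_single]
    exact h
  · refine ⟨Set.range (π.comp Q), isCompact_range (π.comp Q).continuous, fun K f hK hf => ?_⟩
    rw [funF_single]
    refine hf.degen (π.comp Q) (fun p => hK ⟨p, rfl⟩) ?_
    rcases hQ with hQ | hQ
    · left
      intro s t t'
      exact congrArg π (hQ s t t')
    · right
      intro s s' t
      exact congrArg π (hQ s s' t)

/-- Main theorem of part S4. `X` is 2-connected with an action of `L`, `π : X → Y` is continuous and
invariant. `S` is a set of torus squares with prescribed values `c`. Suppose that for every compact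
`K ⊆ Y` there is a cocycle on `K` with the prescribed values on the squares of `S` over `K`. Then there is
an alternating biadditive real form with the prescribed values. -/
theorem bar_main (hX : NConn 2 X) (π : C(X, Y)) (hπ : ∀ (w : L) (x : X), π (w +ᵥ x) = π x)
    (S : Set (Sq X)) (v w : Sq X → L) (hS : ∀ Q ∈ S, TorusSq (v Q) (w Q) Q) (c : Sq X → ℝ)
    (hK : ∀ K : Set Y, IsCompact K → ∃ f : Sq Y → ℝ, CocycleOn K f ∧
      ∀ Q ∈ S, (∀ p, π (Q p) ∈ K) → f (π.comp Q) = c Q) :
    ∃ J : L →+ L →+ ℝ, (∀ u, J u u = 0) ∧ ∀ Q ∈ S, J (v Q) (w Q) = c Q := by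
  classical
  obtain ⟨J, hJ1, hJ2⟩ := exists_I (L := L) hX
  -- the two linear maps on formal sums of squares of `S`
  set F : (S →₀ ℝ) →ₗ[ℝ] Ch L X := Finsupp.linearCombination ℝ fun Q : S => cl L (Q : Sq X) with hF
  set cc : (S →₀ ℝ) →ₗ[ℝ] ℝ := Finsupp.linearCombination ℝ fun Q : S => c Q with hcc
  -- lift to formal sums of squares
  set Fl : (S →₀ ℝ) →ₗ[ℝ] (Sq X →₀ ℝ) :=
    Finsupp.linearCombination ℝ fun Q : S => Finsupp.single (Q : Sq X) (1 : ℝ) with hFl
  have hFF : F = (Submodule.mkQ (Submodule.span ℝ (Rels L X))).comp Fl := by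
    refine Finsupp.lhom_ext fun Q a => ?_
    rw [LinearMap.comp_apply, hF, hFl, Finsupp.linearCombination_single,
      Finsupp.linearCombination_single, map_smul]
    rfl
  have hker : LinearMap.ker F ≤ LinearMap.ker cc := by
    intro z hz
    rw [LinearMap.mem_ker] at hz ⊢
    rw [hFF, LinearMap.comp_apply, Submodule.mkQ_apply, Submodule.Quotient.mk_eq_zero] at hz
    obtain ⟨T, hT, hzT⟩ := Submodule.mem_span_finite_of_mem_span hz
    have hA : ∀ z' ∈ T, ∃ K' : Set Y, IsCompact K' ∧ ∀ (K : Set Y) (f : Sq Y → ℝ), K' ⊆ K →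
        CocycleOn K f → funF π f z' = 0 := fun z' hz' => rel_killed π hπ z' (hT hz')
    choose! K' hK'1 hK'2 using hA
    set K : Set Y := (⋃ z' ∈ T, K' z') ∪ ⋃ Q ∈ z.support, Set.range (π.comp (Q : Sq X)) with hKdef
    have hKc : IsCompact K :=
      (T.isCompact_biUnion hK'1).union
        (z.support.isCompact_biUnion fun Q _ => isCompact_range (π.comp (Q : Sq X)).continuous)
    obtain ⟨f, hf, hfS⟩ := hK K hKc
    have h1 : Submodule.span ℝ (T : Set (Sq X →₀ ℝ)) ≤ LinearMap.ker (funF π f) := by
      rw [Submodule.span_le]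
      intro z' hz'
      show funF π f z' = 0
      refine hK'2 z' hz' K f ?_ hf
      exact (Set.subset_biUnion_of_mem (u := fun z' => K' z') hz').trans Set.subset_union_left
    have h2 : funF π f (Fl z) = 0 := h1 hzT
    rw [← h2, hcc, hFl, Finsupp.linearCombination_apply, Finsupp.linearCombination_apply,
      Finsupp.sum, Finsupp.sum, map_sum]
    refine Finset.sum_congr rfl fun Q hQ => ?_
    rw [map_smul, funF_single, hfS Q Q.2]
    intro p
    right
    exact Set.mem_biUnion (x := Q) hQ ⟨p, rfl⟩
  -- a functional on the chain group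
  obtain ⟨φ, hφ⟩ : ∃ φ : Ch L X →ₗ[ℝ] ℝ, ∀ z, φ (F z) = cc z := by
    set g : LinearMap.range F →ₗ[ℝ] ℝ :=
      ((LinearMap.ker F).liftQ cc hker).comp F.quotKerEquivRange.symm.toLinearMap with hg
    obtain ⟨φ, hφ⟩ := LinearMap.exists_extend g
    refine ⟨φ, fun z => ?_⟩
    have h1 : φ (F z) = g ⟨F z, LinearMap.mem_range_self F z⟩ := by
      rw [← hφ]
      rfl
    have h2 : F.quotKerEquivRange.symm ⟨F z, LinearMap.mem_range_self F z⟩ =
        Submodule.Quotient.mk z := by
      rw [LinearEquiv.symm_apply_eq]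
      rfl
    rw [h1, hg, LinearMap.comp_apply, LinearEquiv.coe_coe, h2, Submodule.liftQ_apply]
  refine ⟨(AddMonoidHom.compHom φ.toAddMonoidHom).comp J, fun u => ?_, fun Q hQ => ?_⟩
  · show φ (J u u) = 0
    rw [hJ1, map_zero]
  · show φ (J (v Q) (w Q)) = c Q
    rw [← hJ2 _ _ Q (hS Q hQ)]
    have h1 := hφ (Finsupp.single ⟨Q, hQ⟩ 1)
    rw [hF, hcc, Finsupp.linearCombination_single, Finsupp.linearCombination_single, one_smul,
      one_smul] at h1
    exact h1

end Pool.Agent.CTB
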