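import Pool.Agent.CT.Bar.Fill

/-!
CT-B-Uniq: the class of a torus square depends only on the pair; torus squares exist.

PLAN of `cl_torus_eq`. `Q, Q'` torus squares for `(v, w)`. Path `c` from `Q(0,0)` to `Q'(0,0)`
(`fill_path`). `S1` = filling (`fill_sq`) of the square with `S1(s,0) = Q(s,0)`, `S1(s,1) = Q'(s,0)`,
`S1(0,r) = c r`, `S1(1,r) = v + c r`. `S2(t,r)`: `S2(t,0) = Q(0,t)`, `S2(t,1) = Q'(0,t)`, `S2(0,r) = c r`,
`S2(1,r) = w + c r`. Cube (`fill_cube`) in the variables `(s,t,r)` with `faceZ 0 = Q`, `faceZ 1 = Q'`,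
`faceY 0 = S1`, `faceY 1 = trSq w S1`, `faceX 0 = S2`, `faceX 1 = trSq v S2`. Now `cl_cube` and `cl_tr`.
-/

namespace Pool.Agent.CTB

open unitInterval

variable {L X : Type*} [AddCommGroup L] [TopologicalSpace X] [AddAction L X]
  [ContinuousConstVAdd L X]

omit [TopologicalSpace X] [ContinuousConstVAdd L X] in
private theorem vadd_swap (v w : L) (x : X) : v +ᵥ (w +ᵥ x) = w +ᵥ (v +ᵥ x) := by
  rw [vadd_vadd, vadd_vadd, add_comm]

/-- A path from a given point to its translate, filled to torus squares. -/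
theorem exists_torusSq (hX : NConn 2 X) (v w : L) : ∃ Q : Sq X, TorusSq v w Q := by
  obtain ⟨x0⟩ := hX.1
  obtain ⟨b, hb0, hb1⟩ := fill_path hX x0 (v +ᵥ x0)
  obtain ⟨l, hl0, hl1⟩ := fill_path hX x0 (w +ᵥ x0)
  let t : C(I, X) := ⟨fun s => w +ᵥ b s, (continuous_const_vadd w).comp b.continuous⟩
  let r : C(I, X) := ⟨fun s => v +ᵥ l s, (continuous_const_vadd v).comp l.continuous⟩
  obtain ⟨Q, h1, h2, h3, h4⟩ := fill_sq hX b t l r (hb0.trans hl0.symm)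
    (by change b 1 = v +ᵥ l 0; rw [hb1, hl0]) (by change w +ᵥ b 0 = l 1; rw [hb0, hl1])
    (by change w +ᵥ b 1 = v +ᵥ l 1; rw [hb1, hl1, vadd_swap])
  refine ⟨Q, fun u => ?_, fun s => ?_⟩
  · rw [h4, h3]
    rfl
  · rw [h2, h1]
    rfl

theorem cl_torus_eq (hX : NConn 2 X) (v w : L) (Q Q' : Sq X) (hQ : TorusSq v w Q)
    (hQ' : TorusSq v w Q') : cl L Q = cl L Q' := by
  obtain ⟨c, hc0, hc1⟩ := fill_path hX (Q (0, 0)) (Q' (0, 0))
  let vc : C(I, X) := ⟨fun s => v +ᵥ c s, (continuous_const_vadd v).comp c.continuous⟩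
  let wc : C(I, X) := ⟨fun s => w +ᵥ c s, (continuous_const_vadd w).comp c.continuous⟩
  obtain ⟨S1, a1, a2, a3, a4⟩ := fill_sq hX (Q.comp ⟨fun s => (s, 0), by fun_prop⟩)
    (Q'.comp ⟨fun s => (s, 0), by fun_prop⟩) c vc
    (by change Q (0, 0) = c 0; rw [hc0])
    (by change Q (1, 0) = v +ᵥ c 0; rw [hc0, hQ.1])
    (by change Q' (0, 0) = c 1; rw [hc1])
    (by change Q' (1, 0) = v +ᵥ c 1; rw [hc1, hQ'.1])
  obtain ⟨S2, b1, b2, b3, b4⟩ := fill_sq hX (Q.comp ⟨fun s => (0, s), by fun_prop⟩)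
    (Q'.comp ⟨fun s => (0, s), by fun_prop⟩) c wc
    (by change Q (0, 0) = c 0; rw [hc0])
    (by change Q (0, 1) = w +ᵥ c 0; rw [hc0, hQ.2])
    (by change Q' (0, 0) = c 1; rw [hc1])
    (by change Q' (0, 1) = w +ᵥ c 1; rw [hc1, hQ'.2])
  have a1' : ∀ s, S1 (s, 0) = Q (s, 0) := a1
  have a2' : ∀ s, S1 (s, 1) = Q' (s, 0) := a2
  have a4' : ∀ s, S1 (1, s) = v +ᵥ c s := a4
  have b1' : ∀ s, S2 (s, 0) = Q (0, s) := b1
  have b2' : ∀ s, S2 (s, 1) = Q' (0, s) := b2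
  have b4' : ∀ s, S2 (1, s) = w +ᵥ c s := b4
  obtain ⟨C, c1, c2, c3, c4, c5, c6⟩ := fill_cube hX S2 (trSq v S2) S1 (trSq w S1) Q Q'
    (fun r => by rw [b3, a3])
    (fun r => by rw [trSq_apply, b4', a3])
    (fun r => by rw [trSq_apply, b3, a4'])
    (fun r => by rw [trSq_apply, trSq_apply, b4', a4', vadd_swap])
    (fun r => by rw [b1'])
    (fun r => by rw [b2'])
    (fun r => by rw [trSq_apply, b1', hQ.1])
    (fun r => by rw [trSq_apply, b2', hQ'.1])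
    (fun r => by rw [a1'])
    (fun r => by rw [a2'])
    (fun r => by rw [trSq_apply, a1', hQ.2])
    (fun r => by rw [trSq_apply, a2', hQ'.2])
  have h := cl_cube L C
  rw [c1, c2, c3, c4, c5, c6, cl_tr, cl_tr, sub_self, sub_self, sub_self, zero_add,
    sub_eq_zero] at h
  exact h.symm

end Pool.Agent.CTB
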